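import Pool.Agent.Helper48_Lozi.Boxes
import Pool.Agent.Helper48_Lozi.Signs

/-!
# Two kneading sequences do not determine the Lozi parameters

We exhibit two distinct parameters in `M`, approximately `(1.82916196, 0.16604061)` and
`(1.73939482, 0.40996882)`, whose Lozi maps share the two distinct kneading sequences
`^∞+ - - + ± . + - - - +^∞` and `^∞+ - + + ± . + - - - + + + + - +^∞`.
-/

set_option autoImplicit false

open Pool.Agent.Helper48_Lozi

namespace Pool.Agent.Results.MP_d76ccc_an.TwoKneadingSequences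

theorem mem_param {u s : ℝ} {a0 b0 ra rb : ℚ} (ba : Ball (u - s) a0 ra) (bb : Ball (u * s) b0 rb)
    (h1 : rb < b0) (h2 : 2 < (a0 - ra) * (1414 / 1000) - (b0 + rb))
    (h3 : 2 * (a0 + ra) + (b0 + rb) < 4) (h4 : ra < a0) : (u - s, u * s) ∈ paramSet := by
  have hb := bb.pos h1
  have ha := ba.pos h4
  have e1 := ba.bounds
  have e2 := bb.bounds
  have h2' : (2 : ℝ) < (((a0 - ra) * (1414 / 1000) - (b0 + rb) : ℚ) : ℝ) := by exact_mod_cast h2
  have h3' : ((2 * (a0 + ra) + (b0 + rb) : ℚ) : ℝ) < 4 := by exact_mod_cast h3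
  push_cast at e1 e2 h2' h3'
  have hs : (1414 / 1000 : ℝ) ≤ Real.sqrt 2 := by
    apply Real.le_sqrt_of_sq_le
    norm_num
  refine ⟨hb, ?_, ?_⟩
  · change 2 < (u - s) * Real.sqrt 2 - u * s
    have : (u - s) * (1414 / 1000) ≤ (u - s) * Real.sqrt 2 := by gcongr
    linarith
  · change 2 * (u - s) + u * s < 4
    linarith

/-- There are two distinct parameters `p ≠ q` in `M` and two distinct sequences `k ≠ k'`, each lying
in the kneading sets of both `L_p` and `L_q`. -/
theorem result : ∃ p ∈ paramSet, ∃ q ∈ paramSet, p ≠ q ∧ ∃ k k' : ℤ → SignType, k ≠ k' ∧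
    k ∈ kneadingSet p.1 p.2 ∧ k' ∈ kneadingSet p.1 p.2 ∧
    k ∈ kneadingSet q.1 q.2 ∧ k' ∈ kneadingSet q.1 q.2 := by
  obtain ⟨u, s, hu, hs, h1, h2⟩ := box1
  obtain ⟨v, t, hv, ht, h3, h4⟩ := box2
  have bu : Ball u (383165937 / 200000000) (1 / 10000000) := hu
  have bs : Ball s (86667729 / 1000000000) (1 / 10000000) := hs
  have bv : Ball v (1949670747 / 1000000000) (1 / 10000000) := hv
  have bt : Ball t (105137963 / 500000000) (1 / 10000000) := ht
  refine ⟨(u - s, u * s), ?_, (v - t, v * t), ?_, ?_, kOne, kTwo, kOne_ne_kTwo,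
    sgn_1_1 bu bs h1, sgn_1_2 bu bs h2, sgn_2_1 bv bt h3, sgn_2_2 bv bt h4⟩
  · exact mem_param (bu.sub bs) (bu.mul bs) (by decide +kernel) (by decide +kernel)
      (by decide +kernel) (by decide +kernel)
  · exact mem_param (bv.sub bt) (bv.mul bt) (by decide +kernel) (by decide +kernel)
      (by decide +kernel) (by decide +kernel)
  · intro heq
    have h5 : u * s = v * t := congrArg Prod.snd heq
    have h6 : 0 < v * t - u * s := ((bv.mul bt).sub (bu.mul bs)).pos (by decide +kernel)
    linarith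

end Pool.Agent.Results.MP_d76ccc_an.TwoKneadingSequences
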